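import Pool.Agent.K4W.StmtsU

/-!
# Squad K4W, row UPT (helper45): initial sums of the weighted terms.
-/

set_option autoImplicit false

namespace Pool.Agent.K4W.H45

open Finset
open Pool.Agent.Helper69_Weyl (ee W ee_add norm_ee sum_ee_div kernel_bound)

theorem ga_nonneg (N : ℕ) (x : ℝ) : 0 ≤ ga N x := (Real.exp_pos _).le

/-- Row UPT. -/
theorem upt (ugb : UgbStmt) (usm : UsmStmt) : UptStmt := by
  obtain ⟨u1, u2, u3⟩ := usm
  intro Z N M t ξ B hZ hN hMN hB
  have hN0 : (0 : ℝ) < N := by exact_mod_cast hN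
  have hZ0 : (0 : ℝ) < Z := by exact_mod_cast hZ
  have hZN : N ≤ Z * N := Nat.le_mul_of_pos_left N hZ
  obtain ⟨R, hR⟩ : ∃ R : ℕ, R = 4 * Z * N := ⟨_, rfl⟩
  have hR4 : R = 4 * (Z * N) := by rw [hR]; ring
  have hRpos : 0 < R := by omega
  have hMR : M ≤ R := by omega
  have hR0 : (0 : ℝ) < R := by exact_mod_cast hRpos
  set S : Finset ℤ := Finset.Icc (-((Z * N : ℕ) : ℤ)) ((Z * N : ℕ) : ℤ) with hS
  set T : ℝ := 400 * (N : ℝ) * Real.exp (-(Real.pi * (Z : ℝ) ^ 2 / 2)) with hT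
  have hE : ∀ ξ' : ℝ, ‖∑ s ∈ S, f N t ξ' s‖ ≤ B + T := by
    intro ξ'
    have hsum : Summable fun x : ℤ => f N t ξ' x := (u2 N t ξ' hN).of_norm
    obtain ⟨g1, g2⟩ := ugb N 1 0 ((Z * N : ℕ) : ℝ) hN le_rfl (by positivity)
    have hA : HasSum (fun s : ℤ => if s ∈ S then f N t ξ' s else 0)
        (∑ s ∈ S, if s ∈ S then f N t ξ' s else 0) :=
      hasSum_sum_of_ne_finset_zero fun s hs => if_neg hs
    have hC := hsum.hasSum.sub hA
    have hAS : (∑ s ∈ S, if s ∈ S then f N t ξ' s else 0) = ∑ s ∈ S, f N t ξ' s :=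
      Finset.sum_congr rfl fun s hs => if_pos hs
    rw [hAS] at hC
    have hb := hC.norm_le_of_bounded g1.hasSum (fun s => by
      by_cases hs : s ∈ S
      · rw [if_pos hs, sub_self, norm_zero]
        split_ifs
        · exact ga_nonneg _ _
        · exact le_rfl
      · rw [if_neg hs, sub_zero, u1]
        have h3 : ((Z * N : ℕ) : ℝ) ≤ |((1 : ℕ) : ℝ) * (s : ℝ) + 0| := by
          have h4 : ((Z * N : ℕ) : ℤ) ≤ |s| := by
            rw [hS, Finset.mem_Icc] at hs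
            by_contra hc
            rw [not_le, abs_lt] at hc
            exact hs ⟨hc.1.le, hc.2.le⟩
          rw [Nat.cast_one, one_mul, add_zero]
          exact_mod_cast h4
        rw [if_pos h3, Nat.cast_one, one_mul, add_zero])
    have h5 : 400 * (N : ℝ) * Real.exp (-(Real.pi * ((Z * N : ℕ) : ℝ) ^ 2 / (2 * (N : ℝ) ^ 2))) =
        T := by
      rw [hT]
      congr 3
      push_cast
      field_simp
    rw [h5] at g2
    have h6 : ∑ s ∈ S, f N t ξ' s = ∑' s : ℤ, f N t ξ' s -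
        (∑' s : ℤ, f N t ξ' s - ∑ s ∈ S, f N t ξ' s) := by ring
    rw [h6]
    exact (norm_sub_le _ _).trans (add_le_add (hB ξ') (hb.trans g2))
  have key : (R : ℂ) * ∑ n ∈ Finset.Icc 1 M, f N t ξ (n : ℤ) =
      ∑ j ∈ range R, (∑ m ∈ Finset.Icc 1 M, ee (-((j : ℝ) / R) * m)) *
        ∑ s ∈ S, f N t (ξ + (j : ℝ) / R) s := by
    have e1 : ∀ j ∈ range R, (∑ m ∈ Finset.Icc 1 M, ee (-((j : ℝ) / R) * m)) *
        ∑ s ∈ S, f N t (ξ + (j : ℝ) / R) s =
        ∑ m ∈ Finset.Icc 1 M, ∑ s ∈ S,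
          f N t ξ s * ee ((j : ℝ) / R * ((s - (m : ℤ) : ℤ) : ℝ)) := by
      intro j _
      rw [Finset.sum_mul_sum]
      refine Finset.sum_congr rfl fun m _ => Finset.sum_congr rfl fun s _ => ?_
      rw [u3]
      have h7 : ee ((j : ℝ) / R * ((s - (m : ℤ) : ℤ) : ℝ)) =
          ee (-((j : ℝ) / R) * m) * ee ((j : ℝ) / R * s) := by
        rw [← ee_add]
        congr 1
        push_cast
        ring
      rw [h7]
      ring
    rw [Finset.sum_congr rfl e1, Finset.sum_comm, Finset.mul_sum]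
    refine Finset.sum_congr rfl fun m hm => ?_
    rw [Finset.mem_Icc] at hm
    have hmS : (m : ℤ) ∈ S := by
      rw [hS, Finset.mem_Icc]
      constructor
      · omega
      · have : m ≤ Z * N := by omega
        exact_mod_cast this
    rw [Finset.sum_comm]
    have e2 : ∀ s ∈ S, ∑ j ∈ range R, f N t ξ s * ee ((j : ℝ) / R * ((s - (m : ℤ) : ℤ) : ℝ)) =
        if s = (m : ℤ) then (R : ℂ) * f N t ξ s else 0 := by
      intro s hs
      rw [← Finset.mul_sum, sum_ee_div R hRpos]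
      by_cases h : s = (m : ℤ)
      · rw [if_pos h, if_pos (by rw [h, sub_self]; exact dvd_zero _), mul_comm]
      · rw [if_neg h, if_neg, mul_zero]
        intro hd
        apply h
        rw [hS, Finset.mem_Icc] at hs
        have h8 : |s - (m : ℤ)| < R := by
          rw [abs_lt]
          have h9 : (m : ℤ) ≤ ((Z * N : ℕ) : ℤ) := by
            have : m ≤ Z * N := by omega
            exact_mod_cast this
          have h10 : (R : ℤ) = 4 * ((Z * N : ℕ) : ℤ) := by exact_mod_cast hR4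
          have h11 : (1 : ℤ) ≤ ((Z * N : ℕ) : ℤ) := by
            have : 1 ≤ Z * N := by omega
            exact_mod_cast this
          constructor <;> omega
        have := Int.eq_zero_of_abs_lt_dvd hd h8
        omega
    rw [Finset.sum_congr rfl e2, Finset.sum_ite_eq' S (m : ℤ), if_pos hmS]
  have hBT : 0 ≤ B + T := (norm_nonneg _).trans (hE 0)
  have h1 : (R : ℝ) * ‖∑ n ∈ Finset.Icc 1 M, f N t ξ (n : ℤ)‖ ≤
      R * (2 + Real.log R) * (B + T) := by
    calc (R : ℝ) * ‖∑ n ∈ Finset.Icc 1 M, f N t ξ (n : ℤ)‖ =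
          ‖(R : ℂ) * ∑ n ∈ Finset.Icc 1 M, f N t ξ (n : ℤ)‖ := by
          rw [norm_mul]; simp
      _ ≤ ∑ j ∈ range R, ‖(∑ m ∈ Finset.Icc 1 M, ee (-((j : ℝ) / R) * m)) *
            ∑ s ∈ S, f N t (ξ + (j : ℝ) / R) s‖ := by
          rw [key]; exact norm_sum_le _ _
      _ ≤ ∑ j ∈ range R, ‖∑ m ∈ Finset.Icc 1 M, ee (-((j : ℝ) / R) * m)‖ * (B + T) := by
          refine Finset.sum_le_sum fun j _ => ?_
          rw [norm_mul]
          exact mul_le_mul_of_nonneg_left (hE _) (norm_nonneg _)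
      _ = (∑ j ∈ range R, ‖∑ m ∈ Finset.Icc 1 M, ee (-((j : ℝ) / R) * m)‖) * (B + T) := by
          rw [Finset.sum_mul]
      _ ≤ R * (2 + Real.log R) * (B + T) :=
          mul_le_mul_of_nonneg_right (kernel_bound R M hRpos hMR) hBT
  have h2 : (R : ℝ) * ‖∑ n ∈ Finset.Icc 1 M, f N t ξ (n : ℤ)‖ ≤
      R * ((2 + Real.log R) * (B + T)) := by linarith
  have h3 := le_of_mul_le_mul_left h2 hR0
  have h4 : (R : ℝ) = 4 * (Z : ℝ) * (N : ℝ) := by rw [hR]; push_cast; ring
  rwa [h4] at h3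

end Pool.Agent.K4W.H45
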